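import Mathlib

/-!
# Colouring pairwise intersecting homothets of a simplex: the combinatorial core

`h i` are the coordinates of the `i`-th homothet: it is `{x : x_k ≤ h i k, ∑ x_k = 0}`; two of them meet iff `0 ≤ ∑ k, min (h i k) (h j k)` and their interiors are disjoint iff this sum is `≤ 0`.
A set `T` of coordinates splits the pair `(i, j)` if `∑_T h j + ∑_(Tᶜ) h i = 0`.  The sets which split some pair of a family (at most `2 ^ m - 2`) are divided by every threshold for one
coordinate into disjoint families of sets, and a minimal splitting set is destroyed by a suitable threshold: this gives a colouring with `1 + |S| / 2` colours.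
-/

namespace SpC

open Finset

variable {ι κ : Type*} [Fintype κ] [DecidableEq κ]

/-- `T` splits `(i, j)` -/
def Split (h : ι → κ → ℝ) (T : Finset κ) (i j : ι) : Prop :=
  ∑ k ∈ T, h j k + ∑ k ∈ Tᶜ, h i k = 0

/-- the family `I` consists of pairwise intersecting homothets -/
structure Fam (h : ι → κ → ℝ) (I : Finset ι) : Prop where
  pos : ∀ i ∈ I, 0 < ∑ k, h i k
  meet : ∀ i ∈ I, ∀ j ∈ I, i ≠ j → 0 ≤ ∑ k, min (h i k) (h j k)

omit [DecidableEq κ] in
theorem Fam.mono {h : ι → κ → ℝ} {I J : Finset ι} (hI : Fam h I) (hJ : J ⊆ I) : Fam h J :=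
  ⟨fun i hi => hI.pos i (hJ hi), fun i hi j hj => hI.meet i (hJ hi) j (hJ hj)⟩

theorem min_le_sum (h : ι → κ → ℝ) (T : Finset κ) (i j : ι) :
    ∑ k, min (h i k) (h j k) ≤ ∑ k ∈ T, h j k + ∑ k ∈ Tᶜ, h i k := by
  rw [← Finset.sum_add_sum_compl T]
  exact add_le_add (Finset.sum_le_sum fun k _ => min_le_right _ _) (Finset.sum_le_sum fun k _ => min_le_left _ _)

theorem Fam.nonneg {h : ι → κ → ℝ} {I : Finset ι} (hI : Fam h I) (T : Finset κ) {i j : ι} (hi : i ∈ I) (hj : j ∈ I) :
    0 ≤ ∑ k ∈ T, h j k + ∑ k ∈ Tᶜ, h i k := by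
  rcases eq_or_ne i j with rfl | hij
  · rw [Finset.sum_add_sum_compl]
    exact (hI.pos i hi).le
  · exact (hI.meet i hi j hj hij).trans (min_le_sum h T i j)

theorem Split.compl {h : ι → κ → ℝ} {T : Finset κ} {i j : ι} (hs : Split h T i j) : Split h Tᶜ j i := by
  unfold Split at hs ⊢
  rw [compl_compl, add_comm]
  exact hs

theorem Fam.exch {h : ι → κ → ℝ} {I : Finset ι} (hI : Fam h I) {T : Finset κ} {i j i' j' : ι} (hi : i ∈ I) (hj : j ∈ I) (hi' : i' ∈ I)
    (hj' : j' ∈ I) (h1 : Split h T i j) (h2 : Split h T i' j') : Split h T i j' := by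
  have h3 := hI.nonneg T hi hj'
  have h4 := hI.nonneg T hi' hj
  unfold Split at h1 h2 ⊢
  linarith

theorem Fam.ne {h : ι → κ → ℝ} {I : Finset ι} (hI : Fam h I) {T : Finset κ} {i j : ι} (hi : i ∈ I) (hs : Split h T i j) : i ≠ j := by
  rintro rfl
  unfold Split at hs
  rw [Finset.sum_add_sum_compl] at hs
  exact absurd hs (hI.pos i hi).ne'

theorem Fam.le {h : ι → κ → ℝ} {I : Finset ι} (hI : Fam h I) {T : Finset κ} {i j : ι} (hi : i ∈ I) (hj : j ∈ I) (hs : Split h T i j) :
    (∀ k ∈ T, h j k ≤ h i k) ∧ ∀ k, k ∉ T → h i k ≤ h j k := by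
  have h1 := hI.meet i hi j hj (hI.ne hi hs)
  unfold Split at hs
  rw [← Finset.sum_add_sum_compl T] at h1
  have h2 : 0 ≤ ∑ k ∈ T, (h j k - min (h i k) (h j k)) := Finset.sum_nonneg fun k _ => sub_nonneg.2 (min_le_right _ _)
  have h3 : 0 ≤ ∑ k ∈ Tᶜ, (h i k - min (h i k) (h j k)) := Finset.sum_nonneg fun k _ => sub_nonneg.2 (min_le_left _ _)
  have h4 : ∑ k ∈ T, (h j k - min (h i k) (h j k)) = 0 := by
    rw [Finset.sum_sub_distrib] at h2 h3 ⊢
    linarith
  have h5 : ∑ k ∈ Tᶜ, (h i k - min (h i k) (h j k)) = 0 := by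
    rw [Finset.sum_sub_distrib] at h2 h3 ⊢
    linarith
  refine ⟨fun k hk => ?_, fun k hk => ?_⟩
  · have h6 := (Finset.sum_eq_zero_iff_of_nonneg fun k _ => sub_nonneg.2 (min_le_right _ _)).1 h4 k hk
    rw [sub_eq_zero.1 h6]
    exact min_le_left _ _
  · have h6 := (Finset.sum_eq_zero_iff_of_nonneg fun k _ => sub_nonneg.2 (min_le_left _ _)).1 h5 k (Finset.mem_compl.2 hk)
    rw [sub_eq_zero.1 h6]
    exact min_le_right _ _

theorem Split.tie {h : ι → κ → ℝ} {T : Finset κ} {i j : ι} (hs : Split h T i j) {k : κ} (hk : k ∈ T) (he : h i k = h j k) : Split h (T.erase k) i j := by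
  unfold Split at hs ⊢
  rw [Finset.compl_erase, Finset.sum_insert (fun hh => (Finset.mem_compl.1 hh) hk)]
  have h1 : h j k + ∑ x ∈ T.erase k, h j x = ∑ x ∈ T, h j x := Finset.add_sum_erase T (fun k => h j k) hk
  linarith

open Classical in
/-- the splitting sets of the family -/
noncomputable def spl (h : ι → κ → ℝ) (I : Finset ι) : Finset (Finset κ) :=
  Finset.univ.filter fun T => ∃ i ∈ I, ∃ j ∈ I, Split h T i j

theorem mem_spl {h : ι → κ → ℝ} {I : Finset ι} {T : Finset κ} : T ∈ spl h I ↔ ∃ i ∈ I, ∃ j ∈ I, Split h T i j := by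
  classical
  unfold spl
  rw [Finset.mem_filter]
  exact ⟨fun hh => hh.2, fun hh => ⟨Finset.mem_univ _, hh⟩⟩

theorem spl_mono {h : ι → κ → ℝ} {I J : Finset ι} (hJ : J ⊆ I) : spl h J ⊆ spl h I := fun T hT => by
  obtain ⟨i, hi, j, hj, hs⟩ := mem_spl.1 hT
  exact mem_spl.2 ⟨i, hJ hi, j, hJ hj, hs⟩

theorem spl_compl {h : ι → κ → ℝ} {I : Finset ι} {T : Finset κ} (hT : T ∈ spl h I) : Tᶜ ∈ spl h I := by
  obtain ⟨i, hi, j, hj, hs⟩ := mem_spl.1 hT
  exact mem_spl.2 ⟨j, hj, i, hi, hs.compl⟩

theorem Fam.empty_notMem {h : ι → κ → ℝ} {I : Finset ι} (hI : Fam h I) : ∅ ∉ spl h I := fun hh => by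
  obtain ⟨i, hi, j, hj, hs⟩ := mem_spl.1 hh
  unfold Split at hs
  rw [Finset.sum_empty, zero_add, Finset.compl_empty] at hs
  exact absurd hs (hI.pos i hi).ne'

/-- THE THRESHOLD LEMMA: a threshold for one coordinate divides the splitting sets. -/
theorem Fam.threshold {h : ι → κ → ℝ} {I : Finset ι} (hI : Fam h I) {I1 I2 : Finset ι} (h1 : I1 ⊆ I) (h2 : I2 ⊆ I) {k : κ} {t : ℝ}
    (ht1 : ∀ i ∈ I1, h i k ≤ t) (ht2 : ∀ i ∈ I2, t < h i k) : Disjoint (spl h I1) (spl h I2) := by
  rw [Finset.disjoint_left]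
  intro T hT1 hT2
  obtain ⟨i, hi, j, hj, hs⟩ := mem_spl.1 hT1
  obtain ⟨i', hi', j', hj', hs'⟩ := mem_spl.1 hT2
  have e1 := hI.exch (h1 hi) (h1 hj) (h2 hi') (h2 hj') hs hs'
  have e2 := hI.exch (h2 hi') (h2 hj') (h1 hi) (h1 hj) hs' hs
  by_cases hk : k ∈ T
  · have := (hI.le (h1 hi) (h2 hj') e1).1 k hk
    linarith [ht1 i hi, ht2 j' hj']
  · have := (hI.le (h2 hi') (h1 hj) e2).2 k hk
    linarith [ht1 j hj, ht2 i' hi']

theorem colour_aux (h : ι → κ → ℝ) (N : ℕ) : ∀ I : Finset ι, I.card ≤ N → Fam h I →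
    ∃ (n : ℕ) (col : ι → ℕ), 2 * n ≤ 2 + (spl h I).card ∧ (∀ i ∈ I, col i < n) ∧
      ∀ i ∈ I, ∀ j ∈ I, i ≠ j → ∑ k, min (h i k) (h j k) = 0 → col i ≠ col j := by
  classical
  induction N with
  | zero =>
    intro I hN _
    have hI0 : I = ∅ := Finset.card_eq_zero.1 (by omega)
    subst hI0
    exact ⟨0, fun _ => 0, by omega, fun i hi => absurd hi (Finset.notMem_empty i), fun i hi => absurd hi (Finset.notMem_empty i)⟩
  | succ N ih =>
    intro I hN hI
    rcases (spl h I).eq_empty_or_nonempty with he | hne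
    · refine ⟨1, fun _ => 0, by omega, fun _ _ => Nat.zero_lt_one, fun i hi j hj hij hm => ?_⟩
      exfalso
      have h1 : (Finset.univ.filter fun k => h j k ≤ h i k) ∈ spl h I := by
        refine mem_spl.2 ⟨i, hi, j, hj, ?_⟩
        unfold Split
        rw [← hm, ← Finset.sum_add_sum_compl (Finset.univ.filter fun k => h j k ≤ h i k)]
        congr 1
        · refine Finset.sum_congr rfl fun k hk => ?_
          rw [min_eq_right (Finset.mem_filter.1 hk).2]
        · refine Finset.sum_congr rfl fun k hk => ?_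
          rw [min_eq_left]
          by_contra hc
          exact (Finset.mem_compl.1 hk) (Finset.mem_filter.2 ⟨Finset.mem_univ k, (not_le.1 hc).le⟩)
      rw [he] at h1
      exact absurd h1 (Finset.notMem_empty _)
    · obtain ⟨T, hT, hmin⟩ := Finset.exists_min_image (spl h I) Finset.card hne
      have hTne : T.Nonempty := by
        rw [Finset.nonempty_iff_ne_empty]
        rintro rfl
        exact hI.empty_notMem hT
      obtain ⟨k, hk⟩ := hTne
      have hB : (I.filter fun j => ∃ i ∈ I, Split h T i j).Nonempty := by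
        obtain ⟨i, hi, j, hj, hs⟩ := mem_spl.1 hT
        exact ⟨j, Finset.mem_filter.2 ⟨hj, i, hi, hs⟩⟩
      obtain ⟨j0, hj0, hmax⟩ := Finset.exists_max_image _ (fun j => h j k) hB
      obtain ⟨hj0I, i0, hi0, hs0⟩ := Finset.mem_filter.1 hj0
      have key : ∀ i ∈ I, ∀ j ∈ I, Split h T i j → h j k ≤ h j0 k ∧ h j0 k < h i k := by
        intro i hi j hj hs
        refine ⟨hmax j (Finset.mem_filter.2 ⟨hj, i, hi, hs⟩), ?_⟩
        have e1 := hI.exch hi hj hi0 hj0I hs hs0
        refine lt_of_le_of_ne ((hI.le hi hj0I e1).1 k hk) fun heq => ?_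
        have h1 : T.erase k ∈ spl h I := mem_spl.2 ⟨i, hi, j0, hj0I, e1.tie hk heq.symm⟩
        have h2 := hmin _ h1
        have h3 := Finset.card_erase_lt_of_mem hk
        omega
      have hsub1 : (I.filter fun i => h i k ≤ h j0 k) ⊆ I := Finset.filter_subset _ _
      have hsub2 : (I.filter fun i => h j0 k < h i k) ⊆ I := Finset.filter_subset _ _
      have hT1 : T ∉ spl h (I.filter fun i => h i k ≤ h j0 k) := fun hh => by
        obtain ⟨i, hi, j, hj, hs⟩ := mem_spl.1 hh
        exact absurd (key i (hsub1 hi) j (hsub1 hj) hs).2 (not_lt.2 (Finset.mem_filter.1 hi).2)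
      have hT2 : T ∉ spl h (I.filter fun i => h j0 k < h i k) := fun hh => by
        obtain ⟨i, hi, j, hj, hs⟩ := mem_spl.1 hh
        exact absurd (key i (hsub2 hi) j (hsub2 hj) hs).1 (not_le.2 (Finset.mem_filter.1 hj).2)
      have hTc1 : Tᶜ ∉ spl h (I.filter fun i => h i k ≤ h j0 k) := fun hh => hT1 (by
        have := spl_compl hh
        rwa [compl_compl] at this)
      have hTc2 : Tᶜ ∉ spl h (I.filter fun i => h j0 k < h i k) := fun hh => hT2 (by
        have := spl_compl hh
        rwa [compl_compl] at this)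
      have hdis := hI.threshold hsub1 hsub2 (k := k) (t := h j0 k) (fun i hi => (Finset.mem_filter.1 hi).2) (fun i hi => (Finset.mem_filter.1 hi).2)
      have hcard : (spl h (I.filter fun i => h i k ≤ h j0 k)).card + (spl h (I.filter fun i => h j0 k < h i k)).card + 2 ≤ (spl h I).card := by
        have h1 : insert T (insert Tᶜ (spl h (I.filter fun i => h i k ≤ h j0 k) ∪ spl h (I.filter fun i => h j0 k < h i k))) ⊆ spl h I := by
          intro U hU
          rcases Finset.mem_insert.1 hU with rfl | hU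
          · exact hT
          · rcases Finset.mem_insert.1 hU with rfl | hU
            · exact spl_compl hT
            · rcases Finset.mem_union.1 hU with hU | hU
              · exact spl_mono hsub1 hU
              · exact spl_mono hsub2 hU
        have h2 := Finset.card_le_card h1
        rw [Finset.card_insert_of_notMem, Finset.card_insert_of_notMem, Finset.card_union_of_disjoint hdis] at h2
        · exact h2
        · intro hh
          rcases Finset.mem_union.1 hh with hh | hh
          · exact hTc1 hh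
          · exact hTc2 hh
        · intro hh
          rcases Finset.mem_insert.1 hh with hh | hh
          · have h3 : k ∈ Tᶜ := hh ▸ hk
            exact (Finset.mem_compl.1 h3) hk
          · rcases Finset.mem_union.1 hh with hh | hh
            · exact hT1 hh
            · exact hT2 hh
      have hc1 : (I.filter fun i => h i k ≤ h j0 k).card < I.card := by
        refine Finset.card_lt_card (Finset.ssubset_iff_subset_ne.2 ⟨hsub1, fun heq => ?_⟩)
        have h3 := (key i0 hi0 j0 hj0I hs0).2
        have h4 : i0 ∈ I.filter fun i => h i k ≤ h j0 k := by rw [heq]; exact hi0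
        exact absurd h3 (not_lt.2 (Finset.mem_filter.1 h4).2)
      have hc2 : (I.filter fun i => h j0 k < h i k).card < I.card := by
        refine Finset.card_lt_card (Finset.ssubset_iff_subset_ne.2 ⟨hsub2, fun heq => ?_⟩)
        have h4 : j0 ∈ I.filter fun i => h j0 k < h i k := by rw [heq]; exact hj0I
        exact absurd (Finset.mem_filter.1 h4).2 (lt_irrefl _)
      obtain ⟨n1, col1, hn1, hlt1, hcol1⟩ := ih _ (by omega) (hI.mono hsub1)
      obtain ⟨n2, col2, hn2, hlt2, hcol2⟩ := ih _ (by omega) (hI.mono hsub2)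
      refine ⟨n1 + n2, fun i => if h i k ≤ h j0 k then col1 i else n1 + col2 i, by omega, fun i hi => ?_, fun i hi j hj hij hm => ?_⟩
      · by_cases hik : h i k ≤ h j0 k
        · simp only [if_pos hik]
          have := hlt1 i (Finset.mem_filter.2 ⟨hi, hik⟩)
          omega
        · simp only [if_neg hik]
          have := hlt2 i (Finset.mem_filter.2 ⟨hi, not_le.1 hik⟩)
          omega
      · by_cases hik : h i k ≤ h j0 k <;> by_cases hjk : h j k ≤ h j0 k
        · simp only [if_pos hik, if_pos hjk]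
          exact hcol1 i (Finset.mem_filter.2 ⟨hi, hik⟩) j (Finset.mem_filter.2 ⟨hj, hjk⟩) hij hm
        · simp only [if_pos hik, if_neg hjk]
          have := hlt1 i (Finset.mem_filter.2 ⟨hi, hik⟩)
          omega
        · simp only [if_neg hik, if_pos hjk]
          have := hlt1 j (Finset.mem_filter.2 ⟨hj, hjk⟩)
          omega
        · simp only [if_neg hik, if_neg hjk]
          have := hcol2 i (Finset.mem_filter.2 ⟨hi, not_le.1 hik⟩) j (Finset.mem_filter.2 ⟨hj, not_le.1 hjk⟩) hij hm
          omega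

/-- A finite family of pairwise intersecting homothets of a `d`-dimensional simplex (in the coordinates `h`) has a colouring with `2 ^ d` colours in which
members with disjoint interiors have different colours. -/
theorem colour [Finite ι] (h : ι → κ → ℝ) {d : ℕ} (hd : Fintype.card κ = d + 1) (hc : ∀ i, 0 < ∑ k, h i k)
    (hs : ∀ i j, i ≠ j → 0 ≤ ∑ k, min (h i k) (h j k)) :
    ∃ col : ι → Fin (2 ^ d), ∀ i j, i ≠ j → ∑ k, min (h i k) (h j k) = 0 → col i ≠ col j := by
  classical
  have : Fintype ι := Fintype.ofFinite ι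
  have hI : Fam h Finset.univ := ⟨fun i _ => hc i, fun i _ j _ hij => hs i j hij⟩
  obtain ⟨n, col, hn, hlt, hcol⟩ := colour_aux h (Finset.univ : Finset ι).card Finset.univ le_rfl hI
  have hS : (spl h Finset.univ).card + 2 ≤ 2 ^ (d + 1) := by
    have h1 : insert (∅ : Finset κ) (insert Finset.univ (spl h Finset.univ)) ⊆ Finset.univ := Finset.subset_univ _
    have h2 := Finset.card_le_card h1
    rw [Finset.card_insert_of_notMem, Finset.card_insert_of_notMem, Finset.card_univ, Fintype.card_finset, hd] at h2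
    · exact h2
    · intro hh
      have := spl_compl hh
      rw [Finset.compl_univ] at this
      exact hI.empty_notMem this
    · intro hh
      rcases Finset.mem_insert.1 hh with hh | hh
      · have h3 : 0 < Fintype.card κ := by omega
        rw [← Finset.card_univ, ← hh, Finset.card_empty] at h3
        exact lt_irrefl _ h3
      · exact hI.empty_notMem hh
  have hn2 : n ≤ 2 ^ d := by
    rw [pow_succ] at hS
    omega
  exact ⟨fun i => ⟨col i, lt_of_lt_of_le (hlt i (Finset.mem_univ i)) hn2⟩, fun i j hij hm heq =>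
    hcol i (Finset.mem_univ i) j (Finset.mem_univ j) hij hm (congrArg Fin.val heq)⟩

end SpC
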